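import Mathlib
import Pool.Agent.N741.HB.Thm3
import Pool.Agent.N741.HB.RootU
import Pool.Agent.Y902.GN.FinB

/-!
# Algebraic points of bounded degree on abelian covers of complete intersections

We consider the projective varieties `X ⊂ P(1, …, 1, w 1, …, w q)` given by `q` equations
`b k * z k ^ r k = F k (x)`, `F k = ∑ i, a k i * h k i (x) ^ (r k * w k)`, with linear forms `h k i`
in `n` variables (and `z k = 0` if `b k = 0`). So `X` is the abelian cover with group
`∏ μ (r k)`, `b k ≠ 0`, branched along the `F k = 0`, of the complete intersection of the other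
hypersurfaces `F k = 0` in `P ^ (n - 1)`. The twists of `X` by algebraic numbers `s`, `s0` have the
coefficients `a k i * s k i` and `b k * s0 k`.

For all `n`, `m`, `q`, `E`, `κ` and `ε > 0` there are `R` and `δ > 0` such that for all `Y ≥ 1` and
all `X` with `r k ≥ R`, `r k * w k ≤ Y ^ δ`, integers `a`, `b` of absolute value at most
`exp (Y ^ δ)` and linear forms with integer coefficients of absolute value at most `Y ^ E`: consider,
over ALL number fields `K` of degree at most `κ` and all embeddings `K → ℂ`, all points with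
coordinates in `K` and `x` of absolute height at most `Y` on all twists by elements of `K` of absolute
height at most `Y ^ E`.

* They all lie on linear sections over at most `Y ^ ε` linear subspaces of `P ^ (n - 1)(ℂ)`.
* Those which do not lie on a line of their twist lie over at most `Y ^ ε` points of
  `P ^ (n - 1)(ℂ)`.
* Each Brody (equivalently Kobayashi) hyperbolic twist has at most `Y ^ ε` such points, and none of
  them lies on a line.

The coordinates `z k` of the points are of exponential height.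

Method: the points are described by the coordinates of `x`, `s`, `s0` with respect to the powers of
a generator of the field generated by them, and by its minimal polynomial. A set of points that are
not covered, for `R → ∞` and `δ → 0`, gives in an ultraproduct a function field of several variables;
the determinant method for the coordinates of the algebraic integers `z`, of exponential size,
resultants, and heights on function fields (Mason's theorem in `n` terms on the curves in all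
coordinate directions) show that the ratios of the terms are constant. Parts of the proof by helpers
20, 26, 27, 54, 72, 130, 264, 273, 323, 340, 368, 426, 438, 441, 459, 572, 603, 618, 776, 814, 868,
887, 945, 966 (see Pool/Agent/N741/HB/Thm.lean and Thm3.lean).
-/

set_option autoImplicit false

namespace Pool.Agent.Results.MP_2ae8fe_ag.AlgebraicPoints

/-- the data of the equations -/
structure Cover (n m q : ℕ) where
  /-- the degrees of the cyclic covers -/
  r : Fin q → ℕ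
  /-- the weights of the coordinates `z k` -/
  w : Fin q → ℕ
  /-- the linear forms -/
  h : Fin q → Fin m → Fin n → ℤ
  a : Fin q → Fin m → ℤ
  b : Fin q → ℤ

variable {n m q : ℕ}

/-- the bounds for the data -/
structure Cover.Bounded (X : Cover n m q) (R E : ℕ) (δ : ℝ) (Y : ℕ) : Prop where
  r : ∀ k, R ≤ X.r k ∧ 1 ≤ X.w k ∧ ((X.r k * X.w k : ℕ) : ℝ) ≤ (Y : ℝ) ^ δ
  a : ∀ k i, ((|X.a k i| : ℤ) : ℝ) ≤ Real.exp ((Y : ℝ) ^ δ)
  b : ∀ k, ((|X.b k| : ℤ) : ℝ) ≤ Real.exp ((Y : ℝ) ^ δ)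
  h : ∀ k i j, |X.h k i j| ≤ (Y : ℤ) ^ E

/-- the equations of the twist of `X` by `s`, `s0` -/
def Cover.On (X : Cover n m q) (s : Fin q → Fin m → ℂ) (s0 : Fin q → ℂ) (x : Fin n → ℂ)
    (z : Fin q → ℂ) : Prop :=
  ∀ k, (X.b k : ℂ) * s0 k * z k ^ X.r k =
    ∑ i, (X.a k i : ℂ) * s k i * (∑ j, (X.h k i j : ℂ) * x j) ^ (X.r k * X.w k) ∧
      (X.b k = 0 → z k = 0)

/-- `(x, z)` are homogeneous coordinates, in a number field `K` of degree at most `κ` (with an
embedding `σ : K → ℂ`), of a point of the twist by `s`, `s0`, where `s k i`, `s0 k ∈ K` are not zero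
and of absolute height at most `Y ^ E` and `x` is of absolute height at most `Y` -/
def Cover.Alg (X : Cover n m q) (κ E Y : ℕ) (s : Fin q → Fin m → ℂ) (s0 : Fin q → ℂ)
    (x : Fin n → ℂ) (z : Fin q → ℂ) : Prop :=
  ∃ (K : Type) (_ : Field K) (_ : NumberField K) (σ : K →+* ℂ) (x' : Fin n → K)
    (z' s0' : Fin q → K) (s' : Fin q → Fin m → K), Module.finrank ℚ K ≤ κ ∧ x' ≠ 0 ∧
    Height.mulHeight x' ≤ (Y : ℝ) ^ Module.finrank ℚ K ∧
    (∀ k i, s' k i ≠ 0 ∧ Height.mulHeight₁ (s' k i) ≤ ((Y : ℝ) ^ E) ^ Module.finrank ℚ K) ∧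
    (∀ k, s0' k ≠ 0 ∧ Height.mulHeight₁ (s0' k) ≤ ((Y : ℝ) ^ E) ^ Module.finrank ℚ K) ∧
    (∀ j, σ (x' j) = x j) ∧ (∀ k, σ (z' k) = z k) ∧ (∀ k i, σ (s' k i) = s k i) ∧
    (∀ k, σ (s0' k) = s0 k) ∧ X.On s s0 x z

/-- the linear section `y ↦ (y, c k * (l k) (y) ^ w k)` is contained in the twist for `y ∈ V` and
contains the point `(x, z)` -/
def Cover.Section (X : Cover n m q) (s : Fin q → Fin m → ℂ) (s0 : Fin q → ℂ)
    (V : Submodule ℂ (Fin n → ℂ)) (c : Fin q → ℂ) (l : Fin q → Fin n → ℤ) (x : Fin n → ℂ)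
    (z : Fin q → ℂ) : Prop :=
  (∀ y ∈ V, X.On s s0 y fun k => c k * (∑ j, (l k j : ℂ) * y j) ^ X.w k) ∧
    x ∈ V ∧ ∀ k, z k = c k * (∑ j, (l k j : ℂ) * x j) ^ X.w k

/-- the point lies on a line: on a linear section over a subspace of dimension `2` -/
def Cover.OnLine (X : Cover n m q) (s : Fin q → Fin m → ℂ) (s0 : Fin q → ℂ) (x : Fin n → ℂ)
    (z : Fin q → ℂ) : Prop :=
  ∃ (V : Submodule ℂ (Fin n → ℂ)) (c : Fin q → ℂ) (l : Fin q → Fin n → ℤ),
    Module.finrank ℂ V = 2 ∧ X.Section s s0 V c l x z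

/-- every holomorphic map from `ℂ` to the twist is constant (such a map is given by holomorphic
homogeneous coordinates) -/
def Cover.BrodyHyperbolic (X : Cover n m q) (s : Fin q → Fin m → ℂ) (s0 : Fin q → ℂ) : Prop :=
  ∀ (f : ℂ → Fin n → ℂ) (ζ : ℂ → Fin q → ℂ), (∀ j, Differentiable ℂ fun t => f t j) →
    (∀ k, Differentiable ℂ fun t => ζ t k) → (∀ t, f t ≠ 0) → (∀ t, X.On s s0 (f t) (ζ t)) →
    ∀ t t', ∃ c : ℂ, c ≠ 0 ∧ f t = c • f t' ∧ ∀ k, ζ t k = c ^ X.w k * ζ t' k

/-- the point with homogeneous coordinates `(x, z)`: the set of all its coordinate vectors -/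
def Cover.pt (X : Cover n m q) (x : Fin n → ℂ) (z : Fin q → ℂ) :
    Set ((Fin n → ℂ) × (Fin q → ℂ)) :=
  {p | ∃ c : ℂ, c ≠ 0 ∧ p.1 = c • x ∧ ∀ k, p.2 k = c ^ X.w k * z k}

open Pool.Agent.Y902.GN Pool.Agent.N741.HB Pool.Agent.N741.HC

/-- a section over a subspace with two independent vectors gives an entire curve -/
theorem not_hyperbolic {X : Cover n m q} {s : Fin q → Fin m → ℂ} {s0 : Fin q → ℂ}
    {V : Submodule ℂ (Fin n → ℂ)} {c : Fin q → ℂ} {l : Fin q → Fin n → ℤ} {x : Fin n → ℂ}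
    {z : Fin q → ℂ} (H : X.Section s s0 V c l x z)
    (hV : Module.finrank ℂ V = 2) : ¬ X.BrodyHyperbolic s s0 := by
  intro hyp
  obtain ⟨x, y, hx, hy, hind⟩ : ∃ x y : Fin n → ℂ, x ∈ V ∧ y ∈ V ∧
      ∀ s t : ℂ, s • x + t • y = 0 → s = 0 ∧ t = 0 := by
    let B := Module.finBasisOfFinrankEq ℂ V hV
    refine ⟨(B 0 : Fin n → ℂ), (B 1 : Fin n → ℂ), (B 0).2, (B 1).2, fun s t hst => ?_⟩
    have h1 := Fintype.linearIndependent_iff.1 B.linearIndependent ![s, t] (by
      rw [Fin.sum_univ_two]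
      apply Subtype.ext
      simpa using hst)
    exact ⟨h1 0, h1 1⟩
  set f : ℂ → Fin n → ℂ := fun t => x + t • y with hf
  set ζ : ℂ → Fin q → ℂ := fun t k => c k * (∑ j, (l k j : ℂ) * f t j) ^ X.w k with hζ
  have hall : ∀ t : ℂ, X.On s s0 (f t) (ζ t) := fun t =>
    H.1 (f t) (V.add_mem hx (V.smul_mem t hy))
  have hfd : ∀ j, Differentiable ℂ fun t => f t j := by
    intro j
    simp only [hf, Pi.add_apply, Pi.smul_apply, smul_eq_mul]
    fun_prop
  obtain ⟨c', -, hc, -⟩ := hyp f ζ hfd (fun k => by simp only [hζ]; fun_prop)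
    (fun t ht => by
      have := hind 1 t (by rw [one_smul]; exact ht)
      exact one_ne_zero this.1) hall 1 0
  have h3 := hind (1 - c') 1 (by
    simp only [hf, one_smul, zero_smul, add_zero] at hc
    rw [sub_smul, one_smul, one_smul, ← hc]
    abel)
  exact one_ne_zero h3.2

/-- if the point is not on a line then the subspace has dimension one -/
theorem span_of_not_onLine {X : Cover n m q} {s : Fin q → Fin m → ℂ} {s0 : Fin q → ℂ}
    {V : Submodule ℂ (Fin n → ℂ)} {c : Fin q → ℂ} {l : Fin q → Fin n → ℤ} {x : Fin n → ℂ}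
    {z : Fin q → ℂ} (H : X.Section s s0 V c l x z) (hx : x ≠ 0) (hL : ¬ X.OnLine s s0 x z) :
    V = Submodule.span ℂ {x} := by
  apply le_antisymm
  · intro y hy
    by_contra hcon
    apply hL
    refine ⟨Submodule.span ℂ {x, y}, c, l, ?_, fun y' hy' => ?_, ?_, H.2.2⟩
    · have hli : LinearIndependent ℂ ![x, y] := by
        rw [LinearIndependent.pair_iff' hx]
        intro a ha
        exact hcon (Submodule.mem_span_singleton.2 ⟨a, ha⟩)
      have h1 := finrank_span_eq_card hli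
      rw [Fintype.card_fin, Matrix.range_cons_cons_empty] at h1
      exact h1
    · refine H.1 y' ?_
      have h2 : Submodule.span ℂ {x, y} ≤ V := by
        rw [Submodule.span_le]
        intro v hv
        rcases hv with rfl | hv
        · exact H.2.1
        · rw [Set.mem_singleton_iff.1 hv]
          exact hy
      exact h2 hy'
    · exact Submodule.subset_span (Set.mem_insert _ _)
  · rw [Submodule.span_le]
    intro v hv
    rw [Set.mem_singleton_iff.1 hv]
    exact H.2.1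

theorem Cover.Alg.ne {X : Cover n m q} {κ E Y : ℕ} {s : Fin q → Fin m → ℂ} {s0 : Fin q → ℂ}
    {x : Fin n → ℂ} {z : Fin q → ℂ} (h : X.Alg κ E Y s s0 x z) : x ≠ 0 := by
  obtain ⟨K, _, _, σ, x', z', s0', s', -, h2, -, -, -, h6, -⟩ := h
  intro h0
  apply h2
  funext j
  have h7 := h6 j
  rw [h0] at h7
  exact (map_eq_zero_iff _ σ.injective).1 h7

/-- the coordinates divided by a coordinate of `x` are of degree at most `κ` -/
theorem Cover.Alg.deg {X : Cover n m q} {κ E Y : ℕ} {s : Fin q → Fin m → ℂ} {s0 : Fin q → ℂ}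
    {x : Fin n → ℂ} {z : Fin q → ℂ} (h : X.Alg κ E Y s s0 x z) (j : Fin n) (k : Fin q) :
    IsIntegral ℚ (z k / x j ^ X.w k) ∧ (minpoly ℚ (z k / x j ^ X.w k)).natDegree ≤ κ := by
  obtain ⟨K, _, _, σ, x', z', s0', s', h1, h2, -, -, -, h6, h7, -⟩ := h
  have e : z k / x j ^ X.w k = σ (z' k / x' j ^ X.w k) := by
    rw [map_div₀, map_pow, h6, h7]
  have hi : IsIntegral ℚ (z' k / x' j ^ X.w k) := IsIntegral.of_finite ℚ _
  let _ : Algebra K ℂ := σ.toAlgebra
  have hst : IsScalarTower ℚ K ℂ := IsScalarTower.of_algebraMap_eq' (RingHom.ext_rat _ _)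
  have e2 : σ (z' k / x' j ^ X.w k) = algebraMap K ℂ (z' k / x' j ^ X.w k) := rfl
  rw [e, e2]
  refine ⟨hi.algebraMap, ?_⟩
  rw [minpoly.algebraMap_eq (algebraMap K ℂ).injective]
  exact (minpoly.natDegree_le _).trans h1

/-- the number of roots of unity of degree at most `κ ^ 2` and zero -/
def NU (κ : ℕ) : ℕ := ((κ * κ + 1).factorial) ^ (κ * κ + 1)

/-- the fibres over a point of projective space -/
theorem fibre_card (X : Cover n m q) {κ E Y : ℕ} {s : Fin q → Fin m → ℂ} {s0 : Fin q → ℂ}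
    (hr : ∀ k, 1 ≤ X.r k) (hs0 : ∀ k, s0 k ≠ 0) (W : Submodule ℂ (Fin n → ℂ))
    (T : Finset (Set ((Fin n → ℂ) × (Fin q → ℂ))))
    (hT : ∀ O ∈ T, ∃ x z, X.Alg κ E Y s s0 x z ∧ O = X.pt x z ∧ Submodule.span ℂ {x} = W) :
    T.card ≤ (NU κ) ^ q := by
  classical
  have hNU : 0 < NU κ := pow_pos (Nat.factorial_pos _) _
  rcases Finset.eq_empty_or_nonempty T with h0 | ⟨O0, hO0⟩
  · rw [h0, Finset.card_empty]
    exact Nat.zero_le _
  obtain ⟨x0, z0, ha0, -, hW0⟩ := hT O0 hO0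
  obtain ⟨j0, hj0⟩ : ∃ j, x0 j ≠ 0 := by
    by_contra hcon
    push Not at hcon
    exact ha0.ne (funext hcon)
  choose! x z ha hO hW using hT
  -- normalised coordinates
  have hsc : ∀ O ∈ T, ∃ c : ℂ, c ≠ 0 ∧ x O = c • x0 := by
    intro O hOT
    have h1 : x O ∈ Submodule.span ℂ {x0} := by
      rw [hW0, ← hW O hOT]
      exact Submodule.mem_span_singleton_self _
    obtain ⟨c, hc⟩ := Submodule.mem_span_singleton.1 h1
    refine ⟨c, ?_, hc.symm⟩
    rintro rfl
    rw [zero_smul] at hc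
    exact (ha O hOT).ne hc.symm
  have hxj : ∀ O ∈ T, x O j0 ≠ 0 := by
    intro O hOT
    obtain ⟨c, hc, h1⟩ := hsc O hOT
    rw [h1]
    exact mul_ne_zero hc hj0
  obtain ⟨u, hu⟩ : ∃ u : Set ((Fin n → ℂ) × (Fin q → ℂ)) → Fin q → ℂ,
    ∀ O k, u O k = z O k / x O j0 ^ X.w k := ⟨_, fun _ _ => rfl⟩
  -- the powers
  have hpow : ∀ O ∈ T, ∀ O' ∈ T, ∀ k, u O k ^ X.r k = u O' k ^ X.r k ∨
      (u O k = 0 ∧ u O' k = 0) := by
    intro O hOT O' hOT' k
    by_cases hb : X.b k = 0
    · right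
      obtain ⟨K, _, _, σ, x', z', s0', s', -, -, -, -, -, -, -, -, -, hon⟩ := ha O hOT
      obtain ⟨K', _, _, σ', x'', z'', s0'', s'', -, -, -, -, -, -, -, -, -, hon'⟩ := ha O' hOT'
      rw [hu, hu, (hon k).2 hb, (hon' k).2 hb, zero_div, zero_div]
      exact ⟨rfl, rfl⟩
    · left
      have key : ∀ O ∈ T, (X.b k : ℂ) * s0 k * u O k ^ X.r k =
          (∑ i, (X.a k i : ℂ) * s k i * (∑ j, (X.h k i j : ℂ) * (x0 j / x0 j0)) ^
            (X.r k * X.w k)) := by
        intro O hOT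
        obtain ⟨K, _, _, σ, x', z', s0', s', -, -, -, -, -, -, -, -, -, hon⟩ := ha O hOT
        obtain ⟨c, hc, h1⟩ := hsc O hOT
        have h2 := (hon k).1
        have h3 : x O j0 ^ (X.w k * X.r k) ≠ 0 := pow_ne_zero _ (hxj O hOT)
        rw [hu, div_pow, ← pow_mul, mul_div_assoc', h2, div_eq_iff h3, Finset.sum_mul]
        refine Finset.sum_congr rfl fun i _ => ?_
        rw [mul_assoc _ _ (x O j0 ^ (X.w k * X.r k)), mul_comm (X.w k), ← mul_pow,
          Finset.sum_mul]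
        congr 2
        refine Finset.sum_congr rfl fun j _ => ?_
        rw [h1]
        simp only [Pi.smul_apply, smul_eq_mul]
        field_simp
      have h4 : (X.b k : ℂ) * s0 k ≠ 0 := mul_ne_zero (by exact_mod_cast hb) (hs0 k)
      exact mul_left_cancel₀ h4 ((key O hOT).trans (key O' hOT').symm)
  -- the ratios are roots of unity or zero
  have hinj : Set.InjOn u T := by
    intro O hOT O' hOT' huu
    obtain ⟨c, hc, h1⟩ := hsc O hOT
    obtain ⟨c', hc', h1'⟩ := hsc O' hOT'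
    have hz : ∀ k, z O' k = (c' / c) ^ X.w k * z O k := by
      intro k
      have h2 := congrFun huu k
      rw [hu, hu, div_eq_div_iff (pow_ne_zero _ (hxj O hOT)) (pow_ne_zero _ (hxj O' hOT')), h1,
        h1'] at h2
      simp only [Pi.smul_apply, smul_eq_mul, mul_pow] at h2
      have h3 : x0 j0 ^ X.w k ≠ 0 := pow_ne_zero _ hj0
      have h4 : z O k * c' ^ X.w k = z O' k * c ^ X.w k := by
        apply mul_right_cancel₀ h3
        linear_combination h2
      rw [div_pow, div_mul_eq_mul_div, eq_div_iff (pow_ne_zero _ hc), mul_comm (c' ^ X.w k)]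
      exact h4.symm
    have hx : x O' = (c' / c) • x O := by
      rw [h1, h1', smul_smul, div_mul_cancel₀ _ hc]
    rw [hO O hOT, hO O' hOT']
    ext p
    constructor
    · rintro ⟨d, hd, p1, p2⟩
      refine ⟨d * (c / c'), mul_ne_zero hd (div_ne_zero hc hc'), ?_, fun k => ?_⟩
      · rw [p1, hx, smul_smul]
        congr 1
        field_simp
      · rw [p2, hz, ← mul_assoc, ← mul_pow]
        congr 2
        field_simp
    · rintro ⟨d, hd, p1, p2⟩
      refine ⟨d * (c' / c), mul_ne_zero hd (div_ne_zero hc' hc), ?_, fun k => ?_⟩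
      · rw [p1, hx, smul_smul]
      · rw [p2, hz, ← mul_assoc, ← mul_pow]
  have hcard : T.card ≤ (Fintype.piFinset fun k : Fin q =>
      ((Polynomial.nthRoots (NU κ) (1 : ℂ)).toFinset.image fun ζ => ζ * u O0 k)).card := by
    refine Finset.card_le_card_of_injOn u (fun O hOT => ?_) hinj
    rw [Finset.mem_coe, Fintype.mem_piFinset]
    intro k
    rw [Finset.mem_image]
    rcases hpow O hOT O0 hO0 k with h1 | ⟨h1, h2⟩
    · by_cases h2 : u O0 k = 0
      · refine ⟨1, ?_, ?_⟩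
        · rw [Multiset.mem_toFinset, Polynomial.mem_nthRoots hNU, one_pow]
        · rw [h2, zero_pow (by have := hr k; omega)] at h1
          rw [h2, mul_zero]
          exact ((pow_eq_zero_iff (by have := hr k; omega)).1 h1).symm
      · refine ⟨u O k / u O0 k, ?_, div_mul_cancel₀ _ h2⟩
        rw [Multiset.mem_toFinset, Polynomial.mem_nthRoots hNU]
        obtain ⟨d1, d2⟩ := (ha O hOT).deg j0 k
        obtain ⟨d3, d4⟩ := (ha O0 hO0).deg j0 k
        rw [← hu] at d1 d2 d3 d4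
        refine root_unity_bdd (N := X.r k) (by have := hr k; omega) ?_ (natDegree_div d1 d3 d2 d4)
        rw [div_pow, h1, div_self (pow_ne_zero _ h2)]
    · refine ⟨1, ?_, ?_⟩
      · rw [Multiset.mem_toFinset, Polynomial.mem_nthRoots hNU, one_pow]
      · rw [h2, mul_zero, h1]
  refine hcard.trans ?_
  rw [Fintype.card_piFinset]
  calc ∏ k : Fin q, ((Polynomial.nthRoots (NU κ) (1 : ℂ)).toFinset.image
        fun ζ => ζ * u O0 k).card ≤ ∏ _k : Fin q, NU κ :=
        Finset.prod_le_prod' fun k _ => Finset.card_image_le.trans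
          ((Multiset.toFinset_card_le _).trans (Polynomial.card_nthRoots _ _))
    _ = (NU κ) ^ q := by rw [Finset.prod_const, Finset.card_univ, Fintype.card_fin]

/-- **Algebraic points of bounded degree on abelian covers.** -/
theorem result (n m q E κ : ℕ) (hq : 1 ≤ q) (ε : ℝ) (hε : 0 < ε) : ∃ (R : ℕ) (δ : ℝ), 0 < δ ∧
    ∀ (Y : ℕ) (X : Cover n m q), 1 ≤ Y → X.Bounded R E δ Y →
      -- the points lie on linear sections over few linear subspaces
      (∃ L : Finset (Submodule ℂ (Fin n → ℂ)), (L.card : ℝ) ≤ (Y : ℝ) ^ ε ∧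
        ∀ s s0 x z, X.Alg κ E Y s s0 x z → ∃ V ∈ L, ∃ c l, X.Section s s0 V c l x z) ∧
      -- the points outside the lines lie over few points of projective space
      ({W : Submodule ℂ (Fin n → ℂ) | ∃ s s0 x z, X.Alg κ E Y s s0 x z ∧
          ¬ X.OnLine s s0 x z ∧ W = Submodule.span ℂ {x}}.Finite ∧
        ({W : Submodule ℂ (Fin n → ℂ) | ∃ s s0 x z, X.Alg κ E Y s s0 x z ∧
          ¬ X.OnLine s s0 x z ∧ W = Submodule.span ℂ {x}}.ncard : ℝ) ≤ (Y : ℝ) ^ ε) ∧
      -- hyperbolic twists have few points, and none of them is on a line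
      ∀ s s0, X.BrodyHyperbolic s s0 →
        {O | ∃ x z, X.Alg κ E Y s s0 x z ∧ O = X.pt x z}.Finite ∧
        ({O | ∃ x z, X.Alg κ E Y s s0 x z ∧ O = X.pt x z}.ncard : ℝ) ≤ (Y : ℝ) ^ ε ∧
        ∀ x z, X.Alg κ E Y s s0 x z → ¬ X.OnLine s s0 x z := by
  classical
  obtain ⟨R, δ, hδ, H⟩ := covA n m q E κ (ε / (2 * (κ + 1))) (by positivity)
  have hNU : 0 < NU κ := pow_pos (Nat.factorial_pos _) _
  obtain ⟨R1, hR1⟩ : ∃ R1 : ℕ, ((NU κ : ℝ)) ^ q + 1 ≤ (R1 : ℝ) ^ (ε / 2) := by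
    refine ⟨⌈((NU κ : ℝ) ^ q + 1) ^ (2 / ε)⌉₊, ?_⟩
    have h1 : ((NU κ : ℝ) ^ q + 1) = (((NU κ : ℝ) ^ q + 1) ^ (2 / ε)) ^ (ε / 2) := by
      rw [← Real.rpow_mul (by positivity), show (2 / ε) * (ε / 2) = 1 by field_simp,
        Real.rpow_one]
    conv_lhs => rw [h1]
    exact Real.rpow_le_rpow (by positivity) (Nat.le_ceil _) (by positivity)
  refine ⟨max R R1, min δ 1, lt_min hδ one_pos, fun Y X hY hX => ?_⟩
  have hY1 : (1 : ℝ) ≤ (Y : ℝ) := by exact_mod_cast hY
  have hm1 : (Y : ℝ) ^ (min δ 1) ≤ (Y : ℝ) ^ δ :=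
    Real.rpow_le_rpow_of_exponent_le hY1 (min_le_left _ _)
  have hm2 : (Y : ℝ) ^ (min δ 1) ≤ (Y : ℝ) := by
    calc (Y : ℝ) ^ (min δ 1) ≤ (Y : ℝ) ^ (1 : ℝ) :=
          Real.rpow_le_rpow_of_exponent_le hY1 (min_le_right _ _)
      _ = (Y : ℝ) := Real.rpow_one _
  have hYR : (R1 : ℝ) ≤ (Y : ℝ) := by
    obtain ⟨h1, h2, h3⟩ := hX.r ⟨0, hq⟩
    have h4 : R1 ≤ X.r ⟨0, hq⟩ * X.w ⟨0, hq⟩ :=
      ((le_max_right _ _).trans h1).trans (Nat.le_mul_of_pos_right _ h2)
    calc (R1 : ℝ) ≤ ((X.r ⟨0, hq⟩ * X.w ⟨0, hq⟩ : ℕ) : ℝ) := by exact_mod_cast h4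
      _ ≤ (Y : ℝ) ^ (min δ 1) := h3
      _ ≤ (Y : ℝ) := hm2
  have hbig : ((NU κ : ℝ)) ^ q + 1 ≤ (Y : ℝ) ^ (ε / 2) :=
    hR1.trans (Real.rpow_le_rpow (by positivity) hYR (by positivity))
  have hYε : (Y : ℝ) ^ (ε / 2) * (Y : ℝ) ^ (ε / 2) = (Y : ℝ) ^ ε := by
    rw [← Real.rpow_add (by linarith)]
    congr 1
    ring
  have hYε2 : (Y : ℝ) ^ (ε / 2) ≤ (Y : ℝ) ^ ε :=
    Real.rpow_le_rpow_of_exponent_le hY1 (by linarith)
  have hrpos : ∀ k, 1 ≤ X.r k := by
    intro k
    obtain ⟨h1, h2, h3⟩ := hX.r k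
    by_contra hcon
    have h4 : R1 = 0 := by
      have := (le_max_right R R1).trans h1
      omega
    rw [h4, Nat.cast_zero, Real.zero_rpow (by positivity)] at hR1
    have h5 : (0 : ℝ) < (NU κ : ℝ) ^ q + 1 := by positivity
    linarith
  -- the height bound `Y ^ (κ + 1)` for the relative heights
  obtain ⟨Z, hZ⟩ : ∃ Z : ℕ, Z = Y ^ (κ + 1) := ⟨_, rfl⟩
  have hYZ : Y ≤ Z := by rw [hZ]; exact Nat.le_self_pow (by omega) _
  have hYZ' : (Y : ℝ) ≤ (Z : ℝ) := by exact_mod_cast hYZ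
  have hZδ : (Y : ℝ) ^ δ ≤ (Z : ℝ) ^ δ := Real.rpow_le_rpow (by positivity) hYZ' hδ.le
  have hZε : (Z : ℝ) ^ (ε / (2 * (κ + 1))) = (Y : ℝ) ^ (ε / 2) := by
    rw [hZ]
    push_cast
    rw [← Real.rpow_natCast, ← Real.rpow_mul (by positivity)]
    congr 1
    push_cast
    field_simp
  obtain ⟨L, hL1, hL2⟩ := H Z (hY.trans hYZ) X.r X.w
    (fun k => ⟨(le_max_left _ _).trans (hX.r k).1, (hX.r k).2.1,
      ((hX.r k).2.2.trans hm1).trans hZδ⟩)
    X.a X.b (fun k i => (hX.a k i).trans (Real.exp_le_exp.2 (hm1.trans hZδ)))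
    (fun k => (hX.b k).trans (Real.exp_le_exp.2 (hm1.trans hZδ))) X.h
    (fun k i j => (hX.h k i j).trans (pow_le_pow_left₀ (by positivity) (by exact_mod_cast hYZ) _))
  rw [hZε] at hL1
  have hsec : ∀ s s0 x z, X.Alg κ E Y s s0 x z → ∃ V ∈ L, ∃ c l, X.Section s s0 V c l x z := by
    rintro s s0 x z ⟨K, _, _, σ, x', z', s0', s', h1, h2, h3, h4, h5, h6, h7, h8, h9, h10⟩
    have hpw : (Y : ℝ) ^ Module.finrank ℚ K ≤ (Z : ℝ) := by
      rw [hZ]
      push_cast
      exact pow_le_pow_right₀ hY1 (by omega)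
    have hpw' : ((Y : ℝ) ^ E) ^ Module.finrank ℚ K ≤ (Z : ℝ) ^ E := by
      rw [← pow_mul, mul_comm, pow_mul]
      exact pow_le_pow_left₀ (by positivity) hpw _
    obtain ⟨V, hV, hxV, l, c, hc1, hc2⟩ := hL2 K σ h1 x' s' s0' z' h2 (h3.trans hpw)
      (fun k i => ⟨(h4 k i).1, (h4 k i).2.trans hpw'⟩)
      (fun k => ⟨(h5 k).1, (h5 k).2.trans hpw'⟩) (fun k => by
        obtain ⟨e1, e2⟩ := h10 k
        refine ⟨?_, fun hb => ?_⟩
        · apply σ.injective
          rw [map_mul, map_mul, map_pow, map_intCast, h9, h7, e1, map_sum]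
          refine Finset.sum_congr rfl fun i _ => ?_
          rw [map_mul, map_mul, map_pow, map_intCast, h8, map_sum, mul_assoc]
          congr 3
          refine Finset.sum_congr rfl fun j _ => ?_
          rw [map_mul, map_intCast, h6]
        · apply σ.injective
          rw [h7, e2 hb, map_zero])
    have hx : (fun j => σ (x' j)) = x := funext h6
    refine ⟨V, hV, fun k => σ (c k), l, fun y hy k => ?_, by rw [← hx]; exact hxV, fun k => ?_⟩
    · obtain ⟨e1, e2⟩ := hc2 y hy k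
      refine ⟨?_, e2⟩
      rw [h9] at e1
      simp only [linC] at e1
      rw [e1]
      refine Finset.sum_congr rfl fun i _ => ?_
      rw [h8, mul_assoc]
    · rw [← h7, hc1 k, map_mul, map_pow, map_sum]
      congr 2
      refine Finset.sum_congr rfl fun j _ => ?_
      rw [map_mul, map_intCast, h6]
  have hspan : ∀ s s0 x z, X.Alg κ E Y s s0 x z → ¬ X.OnLine s s0 x z →
      Submodule.span ℂ {x} ∈ L := by
    intro s s0 x z h1 h2
    obtain ⟨V, hV, c, l, hsc⟩ := hsec s s0 x z h1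
    rw [← span_of_not_onLine hsc h1.ne h2]
    exact hV
  have hNq : (NU κ : ℝ) ^ q ≤ (Y : ℝ) ^ (ε / 2) := by linarith
  refine ⟨⟨L, hL1.trans hYε2, hsec⟩, fin_of_bound _ _ fun T hTT => ?_, fun s s0 hhyp => ?_⟩
  · have h1 : T ⊆ L := by
      intro W hW
      obtain ⟨s, s0, x, z, g1, g2, rfl⟩ := hTT W hW
      exact hspan s s0 x z g1 g2
    have h2 : (T.card : ℝ) ≤ (L.card : ℝ) := by exact_mod_cast Finset.card_le_card h1
    exact (h2.trans hL1).trans hYε2
  · have hline : ∀ x z, X.Alg κ E Y s s0 x z → ¬ X.OnLine s s0 x z := by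
      rintro x z - ⟨V, c, l, hV, hsc⟩
      exact not_hyperbolic hsc hV hhyp
    refine (and_assoc.1 ⟨fin_of_bound _ _ fun T hTT => ?_, hline⟩)
    choose! x z ha hO using hTT
    have hs0 : T.Nonempty → ∀ k, s0 k ≠ 0 := by
      rintro ⟨O, hOT⟩ k
      obtain ⟨K, _, _, σ, x', z', s0', s', -, -, -, -, h5, -, -, -, h9, -⟩ := ha O hOT
      rw [← h9]
      exact (map_ne_zero σ).2 (h5 k).1
    have h1 : T.card ≤ (NU κ) ^ q * (T.image fun O => Submodule.span ℂ {x O}).card := by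
      refine Finset.card_le_mul_card_image _ _ fun W hW => ?_
      obtain ⟨O1, hO1, -⟩ := Finset.mem_image.1 hW
      refine fibre_card X (κ := κ) (E := E) (Y := Y) (s := s) (s0 := s0) hrpos (hs0 ⟨O1, hO1⟩) W _
        fun O hOT => ?_
      obtain ⟨g1, g2⟩ := Finset.mem_filter.1 hOT
      exact ⟨x O, z O, ha O g1, hO O g1, g2⟩
    have h2 : (T.image fun O => Submodule.span ℂ {x O}).card ≤ L.card := by
      refine Finset.card_le_card fun W hW => ?_
      obtain ⟨O, hOT, rfl⟩ := Finset.mem_image.1 hW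
      exact hspan s s0 (x O) (z O) (ha O hOT) (hline _ _ (ha O hOT))
    have h3 : (T.card : ℝ) ≤ (NU κ : ℝ) ^ q * (L.card : ℝ) := by
      exact_mod_cast h1.trans (Nat.mul_le_mul_left _ h2)
    calc (T.card : ℝ) ≤ (NU κ : ℝ) ^ q * (L.card : ℝ) := h3
      _ ≤ (Y : ℝ) ^ (ε / 2) * (Y : ℝ) ^ (ε / 2) :=
          mul_le_mul hNq hL1 (Nat.cast_nonneg _) (by positivity)
      _ = (Y : ℝ) ^ ε := hYε

end Pool.Agent.Results.MP_2ae8fe_ag.AlgebraicPoints
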