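import Pool.Agent.N120.EH.Final

/-!
# Lang's conjecture for almost all covers of products of arbitrary elliptic curves, up to height
`exp (H ^ A)`

`E_i : y² = x³ + a_i x + b_i` (`i = 1, …, r`) are arbitrary elliptic curves over `ℚ` (no complex
multiplication, any rank), `A = E_1 × … × E_r`, embedded in projective space by the plane embeddings
and the Segre embedding. For `d ≥ 2`, `m ≥ 1` consider the covers of degree `d`

  `X_c : w^d + f_1 w^(d-1) + ⋯ + f_d = 0`

of `A`, where `f_k` runs through all the forms of degree `k m` with integer coefficients `c`,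
`|c| ≤ H` (`J` coefficients altogether). The general `X_c` is a smooth projective variety of
dimension `r` with ample canonical class.

* Part 1: for all `A`, `ε > 0` and all sufficiently large `m` the number of the `c` for which `X_c`
  has a rational point over some point `P ∈ A(ℚ)` whose coordinates have height at most `H ^ A`
  (logarithmic height!) is `O(H ^ (J - 1 + ε))`. Up to `ε` this is the true order, since
  `(2H+1) ^ (J-1)` of them have a rational point over the origin of `A`. So `100 %` of the `X_c`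
  have no rational point with coordinates of size up to `exp (H ^ A)`, `H` the size of the
  coefficients.
* Part 2: for all `m ≥ 1` the number of the `c` with a rational point over a point of height at most
  `T` is `O(T ^ (ρ/2 + ε) H ^ (J - 1/2) log H)`, `ρ` being the rank of `A(ℚ)`: `100 %` of the
  `X_c` have no rational point of height up to `exp (H ^ θ)`, `θ < 1/ρ`.
* Parts 3 and 4: the same for arbitrary base varieties. If `Q` is any finite set of points of
  projective space (part 3: of arbitrary height; part 4: `m` large, `|Q| ≤ H ^ A`, height at most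
  `exp (H ^ A)`) then at most `O(|Q| H ^ (J - 1/2) log H)`, respectively `O(H ^ (J - 1 + ε))` of
  the `X_c` have a rational point over a point of `Q`.

In the earlier hand-ins on families of covers of `A` the `E_i` have complex multiplication or
rank at most one; for the other elliptic curves the Mordell-Weil sieve is not available.

The proof: a large sieve inequality for covers of degree `d` at one point (parts 2 and 3). For
points whose ratio of coordinates has size `> H^γ` the vectors of the `d`-th coefficients at the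
forms lie on a rational normal curve, and two of them are congruent only if a Hankel matrix is
singular; a multidimensional large sieve and a structure theorem for the pairs of near solutions
(Siegel's lemma, bound for the size of a factor) give at most `O(H^(J-1))` covers with a point over
`H^B` such points. There are only `H^ε` other points, for which the number of reducible polynomials
is bounded directly.
-/

set_option autoImplicit false

namespace Pool.Agent.Results.MP_2ae8fe_ag.ExponentialHeightRange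

open Pool.Agent.H925R3.DC Pool.Agent.H925R3.RR Pool.Agent.N120.EH

/-- the cover `X_c : w^d + f_1 w^(d-1) + ⋯ + f_d = 0` of the product of the elliptic curves
`E_i : y² = x³ + a i x + b i` has a rational point over a rational point `P = (P_1, …, P_r)` with
`h(x(P_i)) ≤ T` for all `i` -/
def PointUpTo {r m d : ℕ} (a b : Fin r → ℤ) (T : ℝ) (c : Idx (Fin r → Fin 3) m d → ℤ) : Prop :=
  ∃ P : (i : Fin r) → (crv ℚ (a i : ℚ) (b i : ℚ)).Point, (∀ i, htp (P i) ≤ T) ∧
    PointOver c (segre P)

/-- **Almost all covers of products of arbitrary elliptic curves have no rational point of height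
at most `exp (H ^ A)`.** -/
theorem result (d : ℕ) (hd : 2 ≤ d) :
    -- products of arbitrary elliptic curves, large weight `m`
    (∀ (r : ℕ) (a b : Fin r → ℤ), (∀ i, 4 * a i ^ 3 + 27 * b i ^ 2 ≠ 0) →
      ∀ A ε : ℝ, 0 < ε → ∃ m₀ : ℕ, ∀ m : ℕ, m₀ ≤ m → ∃ C : ℝ, 0 < C ∧ ∀ H : ℕ, 1 ≤ H →
        (2 * (H : ℝ) + 1) ^ (Fintype.card (Idx (Fin r → Fin 3) m d) - 1) ≤
          (Nat.card {c : Idx (Fin r → Fin 3) m d → ℤ // (∀ j, |c j| ≤ H) ∧
            PointUpTo a b ((H : ℝ) ^ A) c} : ℝ) ∧
        (Nat.card {c : Idx (Fin r → Fin 3) m d → ℤ // (∀ j, |c j| ≤ H) ∧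
            PointUpTo a b ((H : ℝ) ^ A) c} : ℝ) ≤
          C * (H : ℝ) ^ ((Fintype.card (Idx (Fin r → Fin 3) m d) : ℝ) - 1 + ε)) ∧
    -- products of arbitrary elliptic curves, all weights `m`
    (∀ (r : ℕ) (a b : Fin r → ℤ), (∀ i, 4 * a i ^ 3 + 27 * b i ^ 2 ≠ 0) → ∀ m : ℕ, 1 ≤ m →
      ∀ ε : ℝ, 0 < ε → ∃ C : ℝ, 0 < C ∧ ∀ H : ℕ, 2 ≤ H → ∀ T : ℝ, 1 ≤ T →
        (Nat.card {c : Idx (Fin r → Fin 3) m d → ℤ // (∀ j, |c j| ≤ H) ∧
            PointUpTo a b T c} : ℝ) ≤
          C * T ^ ((∑ i, (Module.finrank ℤ (crv ℚ (a i : ℚ) (b i : ℚ)).Point : ℝ)) / 2 + ε) *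
            ((H : ℝ) ^ ((Fintype.card (Idx (Fin r → Fin 3) m d) : ℝ) - 1 / 2) * Real.log H)) ∧
    -- arbitrary base, points of any height, all weights `m`
    (∀ (σ : Type) [Fintype σ] [DecidableEq σ] (m : ℕ), 1 ≤ m → ∃ C : ℝ, 0 < C ∧
      ∀ H : ℕ, 2 ≤ H → ∀ Q : Finset (σ → ℤ), (∀ x ∈ Q, x ≠ 0) →
        (Nat.card {c : Idx σ m d → ℤ // (∀ j, |c j| ≤ H) ∧
          ∃ x ∈ Q, PointOver c (fun e => (x e : ℚ))} : ℝ) ≤
          C * Q.card * ((H : ℝ) ^ ((Fintype.card (Idx σ m d) : ℝ) - 1 / 2) * Real.log H)) ∧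
    -- arbitrary base, points of height up to `exp (H ^ A)`, large weight `m`
    (∀ (σ : Type) [Fintype σ] [DecidableEq σ] (A ε : ℝ), 0 < ε →
      ∃ m₀ : ℕ, ∀ m : ℕ, m₀ ≤ m → ∃ C : ℝ, 0 < C ∧ ∀ H : ℕ, 1 ≤ H →
        ∀ Q : Finset (σ → ℤ), (Q.card : ℝ) ≤ (H : ℝ) ^ A →
        (∀ x ∈ Q, x ≠ 0 ∧ ∀ e, |(x e : ℝ)| ≤ Real.exp ((H : ℝ) ^ A)) →
        (Nat.card {c : Idx σ m d → ℤ // (∀ j, |c j| ≤ H) ∧
          ∃ x ∈ Q, PointOver c (fun e => (x e : ℚ))} : ℝ) ≤
          C * (H : ℝ) ^ ((Fintype.card (Idx σ m d) : ℝ) - 1 + ε)) := by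
  refine ⟨?_, ?_, ?_, ?_⟩
  · intro r a b hab A ε hε
    obtain ⟨m₀, hm₀⟩ := final_d a b hab d hd A ε hε
    refine ⟨m₀, fun m hm => ?_⟩
    obtain ⟨C, hC0, hC⟩ := hm₀ m hm
    exact ⟨C, hC0, fun H hH => ⟨final_e' a b m d (by omega) H _ (by positivity), hC H hH⟩⟩
  · intro r a b hab m hm ε hε
    exact final_c a b hab m d hm hd ε hε
  · intro σ _ _ m hm
    exact final_a σ m d hm hd
  · intro σ _ _ A ε hε
    exact final_b σ d hd A ε hε

end Pool.Agent.Results.MP_2ae8fe_ag.ExponentialHeightRange
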