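import Pool.Agent.N89.HX.Fin

/-!
# Hilbert's irreducibility theorem, uniformly over all the rational points of a semiabelian variety

`K` is a number field, `G = E_1 × ⋯ × E_r × G_m^s`, where `E_i` is an elliptic curve
`y² = x³ + a_i x` or `y² = x³ + b_i` over `K` (`r + s` arbitrary, any rank). Let `e ≥ 2` and let

  `F(P; t; X) = F_0(P; t) + F_1(P; t) X + ⋯ + F_e(P; t) X^e`

be a polynomial of degree `e` in `X` whose coefficients `F_i` are polynomials over `𝓞 K` in homogeneous
coordinates of `P ∈ E_1 × ⋯ × E_r`, in the coordinates `u` of the torus and in parameters `t = (t_1, …, t_n)`,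
all homogeneous of the same multidegree in the coordinates of the `E_i`. So every `t` defines a covering
`Y_t : F(P; t; X) = 0` of degree `e` of `G`. We assume that for every complex point `P` of `G` the Galois
group of `F(P; t; X)` is the full symmetric group `S_e` on some line in the space of the parameters:
`F(P; y + x v; X)` has the Galois group `S_e` over `ℂ(x)`, for some `y, v ∈ ℂ^n` which may depend on `P`.

**Theorem.** For almost all `c ∈ (𝓞 K)^n` ALL the polynomials `F(P; c; X)`, `P ∈ G(K)` (`S`-integral in the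
torus directions; for `s = 0` all rational points) have degree `e` and Galois group `S_e` over `K`; so the
fibres of `Y_c` over all the rational points of `G` are irreducible:

1. for every `S ≥ 1` at most `(2H+1)^(nN) exp(-c₀ log H / log log H)` of the `(2H+1)^(nN)` vectors `c` of
   size at most `H` are such that for some `P ∈ G(K)` with `S`-units as torus coordinates the Galois
   group is not `S_e`, `N = [K : ℚ]`;
2. there is one exceptional set `𝓔`, with at most `(2H+1)^(nN) exp(-log H / (log log H)²)` elements of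
   size at most `H`, such that for all `S` all but finitely many `c ∉ 𝓔` have the property of 1;
3. the hypothesis holds for linear systems: if all `F_i` have degree at most one in `t` and if for every
   complex point `P` of `G` the vector `(F_0(P; t), …, F_e(P; t))` takes all values in `ℂ^(e+1)`, e.g. for
   `F_i = Φ_i + ∑_x t_(i,x) Λ_(i,x)` with linear systems `Λ_0, …, Λ_e` on `G` without base points.
-/

set_option autoImplicit false

namespace Pool.Agent.Results.MP_2ae8fe_ag.UniformIrreducibility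

open Polynomial NumberField

/-- polynomials with coefficients in `O` in the homogeneous coordinates `V_(i,j)`, `i < r`, `j < 3`,
of points in `r` planes, the coordinates `u_l` of a torus of dimension `s` and the parameters
`t_1, …, t_n` -/
abbrev Pol (O : Type) [CommRing O] (r s n : ℕ) : Type :=
  MvPolynomial ((Fin r × Fin 3) ⊕ (Fin s ⊕ Fin n)) O

/-- homogeneous of degree `d i` in `V_i` -/
def Homog {O : Type} [CommRing O] {r s n : ℕ} (F : Pol O r s n) (d : Fin r → ℕ) : Prop :=
  ∀ μ ∈ F.support, ∀ i, ∑ j, μ (Sum.inl (i, j)) = d i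

/-- of degree at most one in the parameters -/
def Affine {O : Type} [CommRing O] {r s n : ℕ} (F : Pol O r s n) : Prop :=
  ∀ μ ∈ F.support, ∑ i, μ (Sum.inr (Sum.inr i)) ≤ 1

/-- the value `F(V, u; t)`; the coefficients are mapped by `φ` -/
noncomputable def val {O k : Type} [CommRing O] [CommRing k] (φ : O →+* k) {r s n : ℕ}
    (F : Pol O r s n) (V : Fin r → Fin 3 → k) (u : Fin s → k) (t : Fin n → k) : k :=
  MvPolynomial.eval₂ φ (Sum.elim (fun ij => V ij.1 ij.2) (Sum.elim u t)) F

/-- the polynomial `F(V, u; t; X) = ∑ F_i(V, u; t) X^i`; the coefficients are mapped by `φ` -/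
noncomputable def poly {O k : Type} [CommRing O] [CommRing k] (φ : O →+* k) {r s n e : ℕ}
    (F : Fin (e + 1) → Pol O r s n) (V : Fin r → Fin 3 → k) (u : Fin s → k) (t : Fin n → k) : k[X] :=
  ∑ i, C (val φ (F i) V u t) * X ^ (i : ℕ)

/-- `(V, u)` represents a point of `E_1 × ⋯ × E_r × G_m^s`, `E_i : y² = x³ + a_i x + b_i` -/
def OnG {k : Type} [Field k] {r s : ℕ} (a b : Fin r → ℤ) (V : Fin r → Fin 3 → k) (u : Fin s → k) :
    Prop :=
  (∀ i, V i ≠ 0 ∧ V i 1 ^ 2 * V i 2 = V i 0 ^ 3 + a i * V i 0 * V i 2 ^ 2 + b i * V i 2 ^ 3) ∧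
    ∀ l, u l ≠ 0

/-- `p` has degree `e`, is separable and its Galois group over `K` is the full symmetric group: all
the permutations of its roots come from automorphisms of the algebraic closure of `K` -/
def GalSym {K : Type} [Field K] (e : ℕ) (p : K[X]) : Prop :=
  p.natDegree = e ∧ p.Separable ∧ ∀ π : Equiv.Perm (p.rootSet (AlgebraicClosure K)),
    ∃ τ : AlgebraicClosure K ≃ₐ[K] AlgebraicClosure K,
      ∀ x : p.rootSet (AlgebraicClosure K), τ (x : AlgebraicClosure K) = π x

/-- the embedding of `𝓞 K` in `ℂ` -/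
noncomputable def emb {K : Type} [Field K] (σ : K →+* ℂ) : 𝓞 K →+* ℂ :=
  σ.comp (algebraMap (𝓞 K) K)

/-- there is a line `y + x v` in the space of the parameters on which the Galois group of
`F(V, u; t; X)` is `S_e` -/
def GenericallySym {K : Type} [Field K] (σ : K →+* ℂ) {r s n e : ℕ}
    (F : Fin (e + 1) → Pol (𝓞 K) r s n) (V : Fin r → Fin 3 → ℂ) (u : Fin s → ℂ) : Prop :=
  ∃ y v : Fin n → ℂ, GalSym e (poly ((RatFunc.C : ℂ →+* RatFunc ℂ).comp (emb σ)) F
    (fun i j => RatFunc.C (V i j)) (fun l => RatFunc.C (u l))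
    (fun j => RatFunc.C (y j) + RatFunc.C (v j) * RatFunc.X))

/-- `x` is an `S`-unit (for `x ≠ 0`): `S^n x` and `S^n x⁻¹` are algebraic integers for some `n` -/
def SUnit {L : Type} [Field L] (S : ℕ) (x : L) : Prop :=
  ∃ n : ℕ, IsIntegral ℤ ((S : L) ^ n * x) ∧ IsIntegral ℤ ((S : L) ^ n * x⁻¹)

/-- the set of the `c`, `c_j = ∑_i c_(j,i) ω_i ∈ 𝓞 K`, such that for some point `P` of `G` over `K`,
with `S`-units as torus coordinates, `F(P; c; X)` does not have the Galois group `S_e` over `K` -/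
def Exceptional {K : Type} [Field K] [NumberField K] {N r s n e : ℕ}
    (ω : Module.Basis (Fin N) ℤ (𝓞 K)) (a b : Fin r → ℤ) (F : Fin (e + 1) → Pol (𝓞 K) r s n)
    (S : ℕ) : Set (Fin n × Fin N → ℤ) :=
  {c | ∃ (V : Fin r → Fin 3 → K) (u : Fin s → K), OnG a b V u ∧ (∀ l, SUnit S (u l)) ∧
    ¬ GalSym e (poly (algebraMap (𝓞 K) K) F V u
      (fun j => algebraMap (𝓞 K) K (∑ i, c (j, i) • ω i)))}

theorem result (K : Type) [Field K] [NumberField K] (N : ℕ) (ω : Module.Basis (Fin N) ℤ (𝓞 K))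
    (r s n e : ℕ) (he : 2 ≤ e) (a b : Fin r → ℤ) (hab : ∀ i, a i * b i = 0 ∧ (a i ≠ 0 ∨ b i ≠ 0))
    (F : Fin (e + 1) → Pol (𝓞 K) r s n) (d : Fin r → ℕ) (hd : ∀ i, Homog (F i) d)
    (σ : K →+* ℂ) :
    ((∀ V u, OnG a b V u → GenericallySym σ F V u) →
      -- 1. the number of the exceptional `c`
      (∀ S : ℕ, 1 ≤ S → ∃ c₀ : ℝ, 0 < c₀ ∧ ∃ H₀ : ℕ, ∀ H : ℕ, H₀ ≤ H →
        (({c : Fin n × Fin N → ℤ | (∀ i, |c i| ≤ (H : ℤ)) ∧ c ∈ Exceptional ω a b F S}.ncard : ℕ) : ℝ) ≤
          (2 * (H : ℝ) + 1) ^ (n * N) * Real.exp (-c₀ * (Real.log H / Real.log (Real.log H)))) ∧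
      -- 2. one exceptional set for all `S`
      ∃ E : Set (Fin n × Fin N → ℤ),
        (∃ H₀ : ℕ, ∀ H : ℕ, H₀ ≤ H → (({c : Fin n × Fin N → ℤ |
          (∀ i, |c i| ≤ (H : ℤ)) ∧ c ∈ E}.ncard : ℕ) : ℝ) ≤
          (2 * (H : ℝ) + 1) ^ (n * N) * Real.exp (-(Real.log H / Real.log (Real.log H) ^ 2))) ∧
        ∀ S : ℕ, 1 ≤ S → (Exceptional ω a b F S \ E).Finite) ∧
    -- 3. the hypothesis for linear systems
    ((∀ i, Affine (F i)) → ∀ V u, OnG a b V u →
      (∀ z : Fin (e + 1) → ℂ, ∃ t, ∀ i, val (emb σ) (F i) V u t = z i) →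
      GenericallySym σ F V u) := by
  refine ⟨fun hC => ?_, fun hA V u _ hz => ?_⟩
  · have key : ∀ S : ℕ, Exceptional ω a b F S = Pool.Agent.N89.HX.Bad ω a b F S := by
      intro S
      ext c
      constructor
      · rintro ⟨V, u, hV, hu, hc⟩
        refine ⟨V, fun l => Units.mk0 (u l) (hV.2 l), hV.1, fun l => ?_, hc⟩
        obtain ⟨n, hn1, hn2⟩ := hu l
        exact ⟨n, hn1, by simpa using hn2⟩
      · rintro ⟨V, u, hV, hu, hc⟩
        refine ⟨V, fun l => ((u l : Kˣ) : K), ⟨hV, fun l => (u l).ne_zero⟩, fun l => ?_, hc⟩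
        obtain ⟨n, hn1, hn2⟩ := hu l
        exact ⟨n, hn1, by simpa using hn2⟩
    have h := Pool.Agent.N89.HX.finHX K N ω r s n e he a b hab F d hd σ
      (fun V u h => hC V u ⟨h.1, h.2⟩)
    simp only [key]
    exact h
  · exact Pool.Agent.N89.HX.lin σ he F hA V u (fun z => by
      obtain ⟨t, ht⟩ := hz z
      exact ⟨t, funext ht⟩)

end Pool.Agent.Results.MP_2ae8fe_ag.UniformIrreducibility
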